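import Pool.Agent.TH641.DI.Core
import Pool.Agent.TH603.Sur.Main

/-! The expected dimension in every degree near a uniform vector. -/

namespace Pool.Agent.TH641.DI

open Finset Pool.Agent.TH176.Nag Pool.Agent.TH603.Sur Pool.Agent.TH603.Cut Pool.Agent.TH641.NW
open Pool.Agent.TH641.UM Pool.Agent.TH2.NU Pool.Agent.H932R3

theorem sum_map_fs {ι : Type} (s : Finset ι) (w : ι → ℕ) (g : ℕ → ℕ) :
    ((∑ i ∈ s, ({w i} : Multiset ℕ)).map g).sum = ∑ i ∈ s, g (w i) := by
  classical
  induction s using Finset.induction_on with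
  | empty => simp
  | insert i s hi ih =>
    rw [Finset.sum_insert hi, Finset.sum_insert hi, Multiset.map_add, Multiset.sum_add, ih]
    simp

theorem card_fs {ι : Type} (s : Finset ι) (w : ι → ℕ) :
    (∑ i ∈ s, ({w i} : Multiset ℕ)).card = s.card := by
  classical
  induction s using Finset.induction_on with
  | empty => simp
  | insert i s hi ih =>
    rw [Finset.sum_insert hi, Multiset.card_add, ih, Finset.card_insert_of_notMem hi,
      Multiset.card_singleton, add_comm]

/-- the cost of a multiplicity `e ≤ m + 1`: `1` for `m + 1`, `4 (m - e) - 2` for `e < m` -/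
def cost (m e : ℕ) : ℕ := (e - m) + (4 * (m - e) - 2)

/-- the distance to the uniform vector -/
def dist {n : ℕ} (m : ℕ) (w : Fin n → ℕ) : ℕ := ∑ i, cost m (w i)

/-- the exceptional indices -/
def exc {n : ℕ} (m : ℕ) (w : Fin n → ℕ) : Finset (Fin n) := univ.filter fun i => ¬ w i = m

theorem exc_card {n : ℕ} (m : ℕ) (w : Fin n → ℕ) : (exc m w).card ≤ dist m w := by
  unfold exc dist cost
  rw [card_filter]
  refine sum_le_sum fun i _ => ?_
  split_ifs <;> omega

theorem card_eq {N m : ℕ} {w : Fin (4 * N) → ℕ} :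
    (univ.filter fun i => w i = m).card + (exc m w).card = 4 * N := by
  unfold exc
  rw [card_filter_add_card_filter_not]
  simp

theorem split_sum {N m : ℕ} {w : Fin (4 * N) → ℕ} (g : ℕ → ℕ) :
    ∑ i, g (w i) = (univ.filter fun i => w i = m).card * g m + ∑ i ∈ exc m w, g (w i) := by
  have h1 : ∑ i, g (w i) = ∑ i ∈ univ.filter (fun i => w i = m), g (w i) +
      ∑ i ∈ exc m w, g (w i) := by
    unfold exc
    exact (sum_filter_add_sum_filter_not univ (fun i => w i = m) _).symm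
  have h2 : ∑ i ∈ univ.filter (fun i => w i = m), g (w i) =
      ∑ _i ∈ univ.filter (fun i => w i = m), g m := by
    refine sum_congr rfl fun i hi => ?_
    rw [(mem_filter.1 hi).2]
  rw [h1, h2, sum_const, smul_eq_mul]

theorem ms_dist {N m : ℕ} {w : Fin (4 * N) → ℕ} (hk : (exc m w).card ≤ N) :
    ms w = (N - (exc m w).card) • q4 (2 * m) + ((3 * (exc m w).card) • {m} +
      ∑ i ∈ exc m w, ({w i} : Multiset ℕ)) := by
  have h1 : ms w = ∑ i ∈ univ.filter (fun i => w i = m), ({w i} : Multiset ℕ) +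
      ∑ i ∈ exc m w, ({w i} : Multiset ℕ) := by
    unfold ms exc
    exact (sum_filter_add_sum_filter_not univ (fun i => w i = m) _).symm
  have h2 : ∑ i ∈ univ.filter (fun i => w i = m), ({w i} : Multiset ℕ) =
      (univ.filter fun i => w i = m).card • ({m} : Multiset ℕ) := by
    rw [← sum_const]
    refine sum_congr rfl fun i hi => ?_
    rw [(mem_filter.1 hi).2]
  have h3 := card_eq (m := m) (w := w)
  have h4 : (univ.filter fun i => w i = m).card = (N - (exc m w).card) * 4 + 3 * (exc m w).card := by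
    omega
  rw [h1, h2, h4, q4_even, add_smul, mul_smul]
  abel

theorem sum_low {N m : ℕ} {w : Fin (4 * N) → ℕ} (hw : ∀ i, w i ≤ m + 1)
    (hk : (exc m w).card ≤ N) :
    2 * ((N - (exc m w).card) * (2 * m + 1) + ∑ i ∈ exc m w, low m (w i)) + dist m w =
      ∑ i, max (w i) m + 2 * N := by
  have h1 := split_sum (m := m) (w := w) (fun e => max e m)
  have h2 := split_sum (m := m) (w := w) (cost m)
  have h3 := card_eq (m := m) (w := w)
  have h4 : ∑ i ∈ exc m w, (2 * low m (w i) + cost m (w i)) =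
      ∑ i ∈ exc m w, (max (w i) m + (3 * m + 2)) := by
    refine sum_congr rfl fun i hi => ?_
    have h5 : ¬ w i = m := (mem_filter.1 hi).2
    have h6 := hw i
    unfold low cost
    omega
  rw [sum_add_distrib, sum_add_distrib, ← mul_sum, sum_const, smul_eq_mul] at h4
  have e1 : cost m m = 0 := by unfold cost; omega
  rw [e1, mul_zero, zero_add] at h2
  have h2' : dist m w = ∑ i ∈ exc m w, cost m (w i) := h2
  simp only [max_self] at h1
  obtain ⟨t, ht⟩ := Nat.exists_eq_add_of_le hk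
  have e2 : N - (exc m w).card = t := by omega
  have e3 : (univ.filter fun i => w i = m).card = 3 * (exc m w).card + 4 * t := by omega
  rw [e2, h1, h2', e3]
  linarith

theorem sum_up {N m : ℕ} {w : Fin (4 * N) → ℕ} (hw : ∀ i, w i ≤ m + 1)
    (hk : (exc m w).card ≤ N) :
    2 * ((N - (exc m w).card) * (2 * m) + ∑ i ∈ exc m w, up m (w i)) ≤ ∑ i, w i + dist m w := by
  have h1 := split_sum (m := m) (w := w) (fun e => e)
  have h2 := split_sum (m := m) (w := w) (cost m)
  have h3 := card_eq (m := m) (w := w)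
  have h4 : ∑ i ∈ exc m w, 2 * up m (w i) ≤
      ∑ i ∈ exc m w, (w i + cost m (w i) + 3 * m) := by
    refine sum_le_sum fun i hi => ?_
    have h5 : ¬ w i = m := (mem_filter.1 hi).2
    have h6 := hw i
    unfold up cost
    omega
  rw [sum_add_distrib, sum_add_distrib, ← mul_sum, sum_const, smul_eq_mul] at h4
  have e1 : cost m m = 0 := by unfold cost; omega
  rw [e1, mul_zero, zero_add] at h2
  have h2' : dist m w = ∑ i ∈ exc m w, cost m (w i) := h2
  obtain ⟨t, ht⟩ := Nat.exists_eq_add_of_le hk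
  have e2 : N - (exc m w).card = t := by omega
  have e3 : (univ.filter fun i => w i = m).card = 3 * (exc m w).card + 4 * t := by omega
  rw [e2, h1, h2', e3]
  linarith

theorem sum_up_ge {N m : ℕ} {w : Fin (4 * N) → ℕ} (hk : (exc m w).card ≤ N) :
    N * (2 * m) ≤ (N - (exc m w).card) * (2 * m) + ∑ i ∈ exc m w, up m (w i) := by
  have h4 : ∑ i ∈ exc m w, 2 * m ≤ ∑ i ∈ exc m w, up m (w i) := by
    refine sum_le_sum fun i hi => ?_
    unfold up
    omega
  rw [sum_const, smul_eq_mul] at h4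
  obtain ⟨t, ht⟩ := Nat.exists_eq_add_of_le hk
  have e2 : N - (exc m w).card = t := by omega
  rw [e2]
  calc N * (2 * m) = ((exc m w).card + t) * (2 * m) := by rw [← ht]
    _ = t * (2 * m) + (exc m w).card * (2 * m) := by ring
    _ ≤ _ := by omega

theorem le_choose (d : ℕ) : d ≤ (d + 2).choose 2 := by
  have h5 : (d + 2).choose 2 = (d + 1) * (d + 2) / 2 := by
    rw [Nat.choose_two_right]
    congr 1
    rw [mul_comm]
    rfl
  rw [h5, Nat.le_div_iff_mul_le (by norm_num)]
  nlinarith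

/-- **Expected dimension in every degree for all vectors close to a uniform vector.** -/
theorem expDim_dist {N m : ℕ} (hN : 10 ≤ N) (hm : 4 * N + 6 ≤ 2 * m) {w : Fin (4 * N) → ℕ}
    (hw : ∀ i, w i ≤ m + 1)
    (hT : (dist m w : ℝ) + 2 * √(4 * (N : ℝ)) / 3 + 19 / 8 < N) :
    ∃ F : MvPolynomial (Fin (4 * N) × Fin 2) ℚ, F ≠ 0 ∧
      ∀ {L : Type} [Field L] [CharZero L] (P : Fin (4 * N) → Fin 2 → L),
        MvPolynomial.aeval (fun ij : Fin (4 * N) × Fin 2 => P ij.1 ij.2) F ≠ 0 →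
        ∀ d : ℕ, ExpDim L w P d := by
  have hNR : (10 : ℝ) ≤ N := by exact_mod_cast hN
  have hmR : 4 * (N : ℝ) + 6 ≤ 2 * m := by exact_mod_cast hm
  obtain ⟨s, hs⟩ : ∃ s, s = √(4 * (N : ℝ)) := ⟨_, rfl⟩
  have hss : s * s = 4 * N := by rw [hs]; exact Real.mul_self_sqrt (by linarith)
  have hs6 : 6 ≤ s := by rw [hs]; exact Real.le_sqrt_of_sq_le (by norm_num; linarith)
  have hsN : √(N : ℝ) = s / 2 := by
    rw [hs, sqrt_four]; ring
  have hsn : √((4 * N : ℕ) : ℝ) = s := by rw [hs]; congr 1; push_cast; ring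
  have hCN : dist m w < N := by
    have h : (dist m w : ℝ) < N := by rw [← hs] at hT; linarith
    exact_mod_cast h
  have hkC := exc_card m w
  have hk : (exc m w).card ≤ N := by omega
  have hlow := sum_low hw hk
  have hup := sum_up hw hk
  have hge := sum_up_ge (m := m) hk
  obtain ⟨C, hCd⟩ : ∃ C, C = dist m w := ⟨_, rfl⟩
  obtain ⟨k, hkd⟩ : ∃ k, k = (exc m w).card := ⟨_, rfl⟩
  obtain ⟨W, hWd⟩ : ∃ W, W = ∑ i, w i := ⟨_, rfl⟩
  obtain ⟨V, hVd⟩ : ∃ V, V = ∑ i, max (w i) m := ⟨_, rfl⟩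
  obtain ⟨E, hEd⟩ : ∃ E : Multiset ℕ, E = ∑ i ∈ exc m w, ({w i} : Multiset ℕ) := ⟨_, rfl⟩
  have hEc : E.card = k := by rw [hEd, hkd]; exact card_fs _ _
  have hEm : ∀ e ∈ E, e ≤ m + 1 ∧ e ≠ m := by
    intro e he
    rw [hEd, Multiset.mem_sum] at he
    obtain ⟨i, hi, hi'⟩ := he
    rw [Multiset.mem_singleton] at hi'
    rw [hi']
    exact ⟨hw i, (mem_filter.1 hi).2⟩
  have hms : ms w = (N - k) • q4 (2 * m) + ((3 * k) • {m} + E) := by
    rw [hEd, hkd]
    exact ms_dist hk
  have eL : (E.map (low m)).sum = ∑ i ∈ exc m w, low m (w i) := by rw [hEd]; exact sum_map_fs _ _ _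
  have eU : (E.map (up m)).sum = ∑ i ∈ exc m w, up m (w i) := by rw [hEd]; exact sum_map_fs _ _ _
  rw [← eL, ← hkd, ← hCd, ← hVd, ← hEc] at hlow
  rw [← eU, ← hkd, ← hCd, ← hWd, ← hEc] at hup
  rw [← eU, ← hkd, ← hEc] at hge
  rw [← hCd, ← hs] at hT
  obtain ⟨SL, hSL⟩ : ∃ SL : ℕ, SL = (N - E.card) * (2 * m + 1) + (E.map (low m)).sum := ⟨_, rfl⟩
  obtain ⟨SU, hSU⟩ : ∃ SU : ℕ, SU = (N - E.card) * (2 * m) + (E.map (up m)).sum := ⟨_, rfl⟩
  rw [← hSL] at hlow
  rw [← hSU] at hup hge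
  have hlowR : 2 * (SL : ℝ) + C = V + 2 * N := by exact_mod_cast hlow
  have hupR : 2 * (SU : ℝ) ≤ W + C := by exact_mod_cast hup
  have hgeR : (N : ℝ) * (2 * m) ≤ SU := by exact_mod_cast hge
  have hV : 4 * N * m ≤ V := by
    rw [hVd]
    have e : 4 * N * m = ∑ _i : Fin (4 * N), m := by simp
    rw [e]
    exact sum_le_sum fun i _ => le_max_right _ _
  have hVR : 4 * (N : ℝ) * m ≤ V := by exact_mod_cast hV
  have hNm : (N : ℝ) * (4 * N + 6) ≤ N * (2 * m) := mul_le_mul_of_nonneg_left hmR (by linarith)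
  have hC0 : (0 : ℝ) ≤ C := Nat.cast_nonneg C
  have hNN : (0 : ℝ) ≤ (N : ℝ) * N := by positivity
  have hCN' : (C : ℝ) ≤ N := by linarith
  have hWlow : 4 * (N : ℝ) * (4 * N / 2 + 2) ≤ W := by linarith
  -- the middle degrees
  have mid : ∀ d : ℕ, 2 * (W : ℝ) + 4 * N ≤ s * (2 * d + 3) + 2 * s / 3 + 9 / 4 →
      s * (2 * d + 3) ≤ 2 * (V : ℝ) + 4 * N + 2 * s / 3 + 1 / 4 →
      ((d + 2).choose 2 ≤ cond w → Emp w (TZ d)) ∧ (cond w ≤ (d + 2).choose 2 → Sur w (TZ d)) := by
    intro d h1 h2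
    refine Sgn_of_ms (M := (N - E.card) • q4 (2 * m) + ((3 * E.card) • {m} + E)) ?_ ?_
    · rw [hEc]; exact hms
    · refine sgn_dist hN (by omega) (by omega) hEm ?_ ?_ ?_
      · rw [← hSU, hsN]
        linarith
      · rw [← hSL]
        linarith
      · rw [← hSL, hsN]
        linarith
  -- all degrees
  have hc : Fintype.card (Fin (4 * N)) = 4 * N := Fintype.card_fin _
  obtain ⟨F, hF, hF'⟩ := expDim_two (w := w)
    (A := fun d => d ≤ W + 4 * N + cond w ∧ Emp w (TZ d)) (B := fun d => Sur w (TZ d))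
    (W + 4 * N + cond w) (fun d hd => hd.1) (fun d hd => hd.2) (fun d hd => hd)
  refine ⟨F, hF, fun P hP d => hF' P hP d ?_⟩
  rcases lt_or_ge (s * (2 * d + 3) + 2 * s / 3 + 9 / 4) (2 * (W : ℝ) + 4 * N) with h1 | h1
  · left
    constructor
    · have h2 : (2 * d + 3 : ℝ) ≤ s * (2 * d + 3) :=
        le_mul_of_one_le_left (by positivity) (by linarith)
      have h3 : (d : ℝ) ≤ ((W + 4 * N : ℕ) : ℝ) := by push_cast; linarith
      have h4 : d ≤ W + 4 * N := by exact_mod_cast h3
      omega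
    · refine Emp_win2 keyE (n := 4 * N) (by omega) hc ?_ ?_
      · rw [← hWd]
        push_cast
        exact hWlow
      · rw [← hWd, hsn]
        push_cast
        linarith
  · rcases lt_or_ge (2 * (V : ℝ) + 4 * N + 2 * s / 3 + 1 / 4) (s * (2 * d + 3)) with h2 | h2
    · right
      refine Sur_win2 keyS (n := 4 * N) (b := m) (by omega) hc hw ?_
      rw [← hVd, hsn]
      push_cast
      linarith
    · rcases le_total ((d + 2).choose 2) (cond w) with h3 | h3
      · left
        refine ⟨?_, (mid d h1 h2).1 h3⟩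
        have h4 := le_choose d
        omega
      · right
        exact (mid d h1 h2).2 h3

end Pool.Agent.TH641.DI
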