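import Pool.Agent.TH2.NU.Multi
import Pool.Agent.TH641.NW.Win2
import Pool.Agent.TH641.NW.Inst
import Pool.Agent.TH641.UM.Ones

/-! The sign theorem near a uniform vector: clusters `(m, m, m, e)` as spectators of the doubling. -/

namespace Pool.Agent.TH641.DI

open Finset Pool.Agent.TH176.Nag Pool.Agent.TH603.Sur Pool.Agent.TH603.Cut Pool.Agent.TH641.NW
open Pool.Agent.TH641.UM Pool.Agent.TH2.NU

/-- the sign theorem for a multiset -/
def Sgn (M : Multiset ℕ) (d : ℕ) : Prop :=
  ((d + 2).choose 2 ≤ Pool.Agent.TH2.NU.condM M → EmpM M (TZ d)) ∧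
    (Pool.Agent.TH2.NU.condM M ≤ (d + 2).choose 2 → SurM M (TZ d))

theorem Sgn_dbl {a b : ℕ} (ha : 0 < a) {M : Multiset ℕ} {d : ℕ}
    (h1 : SurM (a • {b} + M) (TZ d)) (h2 : EmpM (a • {b + 1} + M) (TZ d)) : Sgn (a • q4 b + M) d := by
  rw [← coe_TF] at h1 h2
  have h := dblM ha (fun u hu => by
    have h : u ∈ TZ d := by rw [← coe_TF]; exact mem_coe.2 hu
    exact ⟨h.1, h.2.1⟩) h1 h2
  rw [card_TF, coe_TF] at h
  exact h

theorem exM' {a b : ℕ} (hb : 1 ≤ b) {M : Multiset ℕ} {d : ℕ}
    (h : EmpM (a • {b} + M) (TZ d)) : EmpM (a • r4 b + M) (TZ d) := by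
  rw [← coe_TF] at h ⊢
  exact exM hb h

theorem Sgn_of_ms {ι : Type} [Fintype ι] {w : ι → ℕ} {M : Multiset ℕ} {d : ℕ} (h : ms w = M)
    (hs : Sgn M d) : ((d + 2).choose 2 ≤ cond w → Emp w (TZ d)) ∧
      (cond w ≤ (d + 2).choose 2 → Sur w (TZ d)) := by
  rw [cond_condM, h]
  exact ⟨fun h1 => (EmpM_iff h _).1 (hs.1 h1), fun h1 => (SurM_iff h _).1 (hs.2 h1)⟩

theorem sqrt_four (N : ℕ) : √(4 * (N : ℝ)) = 2 * √(N : ℝ) := by
  rw [Real.sqrt_mul (by norm_num)]
  congr 1
  rw [show (4 : ℝ) = 2 ^ 2 by norm_num]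
  exact Real.sqrt_sq (by norm_num)

theorem raise1 {b b' : ℕ} (hb : b ≤ b') {M : Multiset ℕ} {S : Set (ℤ × ℤ)}
    (h : EmpM ({b} + M) S) : EmpM ({b'} + M) S := by
  have h1 := EmpM.raise (a := 1) hb (M := M) (S := S) (by rwa [one_smul])
  rwa [one_smul] at h1

theorem lower1 {b b' : ℕ} (hb : b' ≤ b) {M : Multiset ℕ} {S : Set (ℤ × ℤ)}
    (h : SurM ({b} + M) S) : SurM ({b'} + M) S := by
  have h1 := SurM.lower (a := 1) hb (M := M) (S := S) (by rwa [one_smul])
  rwa [one_smul] at h1

theorem r4_even {v : ℕ} (hv : 1 ≤ v) : r4 (2 * v) = {v - 1} + 3 • ({v} : Multiset ℕ) := by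
  unfold r4 ms
  rw [Fintype.sum_prod_type]
  simp only [Fin.sum_univ_two, rv, Fin.val_zero, Fin.val_one, mul_zero, mul_one, add_zero, zero_add]
  have e1 : (2 * (2 * v) - 1) / 4 = v - 1 := by omega
  have e2 : (2 * (2 * v) - 1 + 1) / 4 = v := by omega
  have e3 : (2 * (2 * v) - 1 + 2) / 4 = v := by omega
  have e4 : (2 * (2 * v) - 1 + (2 + 1)) / 4 = v := by omega
  rw [e1, e2, e3, e4]
  abel

theorem r4_odd (m : ℕ) : r4 (2 * m + 1) = {m + 1} + 3 • ({m} : Multiset ℕ) := by
  unfold r4 ms
  rw [Fintype.sum_prod_type]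
  simp only [Fin.sum_univ_two, rv, Fin.val_zero, Fin.val_one, mul_zero, mul_one, add_zero, zero_add]
  have e1 : (2 * (2 * m + 1) - 1) / 4 = m := by omega
  have e2 : (2 * (2 * m + 1) - 1 + 1) / 4 = m := by omega
  have e3 : (2 * (2 * m + 1) - 1 + 2) / 4 = m := by omega
  have e4 : (2 * (2 * m + 1) - 1 + (2 + 1)) / 4 = m + 1 := by omega
  rw [e1, e2, e3, e4]
  abel

theorem q4_even (m : ℕ) : q4 (2 * m) = 4 • ({m} : Multiset ℕ) := by
  unfold q4 ms
  rw [Fintype.sum_prod_type]
  simp only [Fin.sum_univ_two, qv, Fin.val_zero, Fin.val_one, add_zero]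
  have e1 : (2 * m) / 2 = m := by omega
  have e2 : (2 * m + 1) / 2 = m := by omega
  rw [e1, e2]
  abel

/-- the lower replacement of the cluster `(m, m, m, e)` -/
def low (m e : ℕ) : ℕ := 2 * min (e + 1) m + (e - m)

/-- the upper replacement of the cluster `(m, m, m, e)` -/
def up (m e : ℕ) : ℕ := 2 * m + (e - m)

/-- lowering the clusters `(m, m, m, e)` -/
theorem emp_clusters {m : ℕ} (hm : 1 ≤ m) {d : ℕ} : ∀ (E M : Multiset ℕ),
    (∀ e ∈ E, e ≤ m + 1) → EmpM (M + E.map (low m)) (TZ d) →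
    EmpM (M + ((3 * E.card) • {m} + E)) (TZ d) := by
  intro E
  induction E using Multiset.induction_on with
  | empty => intro M _ h; simpa using h
  | cons e E ih =>
    intro M hE h
    rw [Multiset.map_cons, ← Multiset.singleton_add] at h
    have he : e ≤ m + 1 := hE e (Multiset.mem_cons_self _ _)
    have h0 : EmpM (1 • {low m e} + (M + E.map (low m))) (TZ d) := by
      have e1 : 1 • ({low m e} : Multiset ℕ) + (M + E.map (low m)) =
          M + ({low m e} + E.map (low m)) := by
        rw [one_smul]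
        abel
      rw [e1]
      exact h
    have h4 : EmpM (3 • ({m} : Multiset ℕ) + ({e} + (M + E.map (low m)))) (TZ d) := by
      rcases Nat.lt_or_ge m e with h1 | h1
      · have e1 : e = m + 1 := by omega
        subst e1
        have e2 : low m (m + 1) = 2 * m + 1 := by unfold low; omega
        rw [e2] at h0
        have h2 := exM' (by omega) h0
        rw [one_smul, r4_odd] at h2
        have e3 : 3 • ({m} : Multiset ℕ) + ({m + 1} + (M + E.map (low m))) =
            {m + 1} + 3 • ({m} : Multiset ℕ) + (M + E.map (low m)) := by abel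
        rw [e3]
        exact h2
      · have e2 : low m e = 2 * min (e + 1) m := by unfold low; omega
        rw [e2] at h0
        have hv : 1 ≤ min (e + 1) m := by omega
        have h2 := exM' (by omega) h0
        rw [one_smul, r4_even hv] at h2
        have h3 : EmpM ({e} + (3 • ({min (e + 1) m} : Multiset ℕ) + (M + E.map (low m)))) (TZ d) := by
          refine raise1 (b := min (e + 1) m - 1) (by omega) ?_
          rw [← add_assoc]
          exact h2
        refine EmpM.raise (b := min (e + 1) m) (by omega) ?_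
        have e1 : 3 • ({min (e + 1) m} : Multiset ℕ) + ({e} + (M + E.map (low m))) =
            {e} + (3 • ({min (e + 1) m} : Multiset ℕ) + (M + E.map (low m))) := by abel
        rw [e1]
        exact h3
    have h5 := ih ({e} + 3 • ({m} : Multiset ℕ) + M) (fun x hx => hE x (Multiset.mem_cons_of_mem hx)) (by
      have e1 : {e} + 3 • ({m} : Multiset ℕ) + M + E.map (low m) =
          3 • ({m} : Multiset ℕ) + ({e} + (M + E.map (low m))) := by abel
      rw [e1]
      exact h4)
    have e2 : M + ((3 * (e ::ₘ E).card) • ({m} : Multiset ℕ) + (e ::ₘ E)) =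
        {e} + 3 • ({m} : Multiset ℕ) + M + ((3 * E.card) • {m} + E) := by
      rw [Multiset.card_cons, ← Multiset.singleton_add, mul_add, mul_one, add_smul]
      abel
    rw [e2]
    exact h5

/-- raising the clusters `(m, m, m, e)` -/
theorem sur_clusters {m : ℕ} (hm : 1 ≤ m) {S : Set (ℤ × ℤ)} : ∀ (E M : Multiset ℕ),
    (∀ e ∈ E, e ≤ m + 1 ∧ e ≠ m) → SurM (M + E.map (up m)) S →
    SurM (M + ((3 * E.card) • {m} + E)) S := by
  intro E
  induction E using Multiset.induction_on with
  | empty => intro M _ h; simpa using h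
  | cons e E ih =>
    intro M hE h
    rw [Multiset.map_cons, ← Multiset.singleton_add] at h
    have he := hE e (Multiset.mem_cons_self _ _)
    have h0 : SurM (1 • {up m e} + (M + E.map (up m))) S := by
      have e1 : 1 • ({up m e} : Multiset ℕ) + (M + E.map (up m)) =
          M + ({up m e} + E.map (up m)) := by
        rw [one_smul]
        abel
      rw [e1]
      exact h
    have h4 : SurM ({e} + (3 • ({m} : Multiset ℕ) + (M + E.map (up m)))) S := by
      rcases Nat.lt_or_ge m e with h1 | h1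
      · have e1 : e = m + 1 := by omega
        subst e1
        have e2 : up m (m + 1) = 2 * m + 1 := by unfold up; omega
        rw [e2] at h0
        have h2 := exMS (b := 2 * m + 1) (by omega) h0
        rw [one_smul, r4_odd] at h2
        rw [← add_assoc]
        exact h2
      · have e2 : up m e = 2 * m := by unfold up; omega
        rw [e2] at h0
        have h2 := exMS (b := 2 * m) (by omega) h0
        rw [one_smul, r4_even hm] at h2
        refine lower1 (b := m - 1) (by omega) ?_
        rw [← add_assoc]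
        exact h2
    have h5 := ih ({e} + 3 • ({m} : Multiset ℕ) + M) (fun x hx => hE x (Multiset.mem_cons_of_mem hx)) (by
      have e1 : {e} + 3 • ({m} : Multiset ℕ) + M + E.map (up m) =
          {e} + (3 • ({m} : Multiset ℕ) + (M + E.map (up m))) := by abel
      rw [e1]
      exact h4)
    have e2 : M + ((3 * (e ::ₘ E).card) • ({m} : Multiset ℕ) + (e ::ₘ E)) =
        {e} + 3 • ({m} : Multiset ℕ) + M + ((3 * E.card) • {m} + E) := by
      rw [Multiset.card_cons, ← Multiset.singleton_add, mul_add, mul_one, add_smul]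
      abel
    rw [e2]
    exact h5

/-- the window `Emp` for a multiset -/
theorem EmpM_win {M : Multiset ℕ} {N d : ℕ} (hN : 10 ≤ N) (hc : M.card = N)
    (h1 : (N : ℝ) * ((N : ℝ) / 2 + 2) ≤ (M.sum : ℝ))
    (h2 : √(N : ℝ) * (d + 3 / 2) + √(N : ℝ) / 3 + 9 / 8 < (M.sum : ℝ) + N / 2) :
    EmpM M (TZ d) := by
  unfold EmpM
  have e1 : Fintype.card (Fin M.toList.length) = N := by
    rw [Fintype.card_fin, Multiset.length_toList, hc]
  have e2 : ∑ i : Fin M.toList.length, M.toList.get i = M.sum := by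
    rw [← ms_sum_val, exists_fam]
  exact Emp_win2 keyE hN e1 (by rw [e2]; exact h1) (by rw [e2]; exact h2)

/-- the window `Sur` for a multiset -/
theorem SurM_win {M : Multiset ℕ} {N b d : ℕ} (hN : 10 ≤ N) (hc : M.card = N)
    (hb : ∀ e ∈ M, b ≤ e ∧ e ≤ b + 1)
    (h2 : (M.sum : ℝ) + N / 2 + √(N : ℝ) / 3 + 1 / 8 < √(N : ℝ) * (d + 3 / 2)) :
    SurM M (TZ d) := by
  unfold SurM
  have e1 : Fintype.card (Fin M.toList.length) = N := by
    rw [Fintype.card_fin, Multiset.length_toList, hc]
  have e2 : ∑ i : Fin M.toList.length, M.toList.get i = M.sum := by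
    rw [← ms_sum_val, exists_fam]
  have hmem : ∀ i : Fin M.toList.length, M.toList.get i ∈ M := fun i =>
    Multiset.mem_toList.1 (List.get_mem _ _)
  refine Sur_win2 keyS hN e1 (b := b) (fun i => (hb _ (hmem i)).2) ?_
  have e3 : ∑ i : Fin M.toList.length, max (M.toList.get i) b = M.sum := by
    rw [← e2]
    exact sum_congr rfl fun i _ => max_eq_left (hb _ (hmem i)).1
  rw [e3]
  exact h2

/-- **the sign theorem** -/
theorem sgn_dist {N m d : ℕ} {E : Multiset ℕ} (hN : 10 ≤ N) (hk : E.card < N) (hm : 1 ≤ m)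
    (hE : ∀ e ∈ E, e ≤ m + 1 ∧ e ≠ m)
    (hS : (((N - E.card) * (2 * m) + (E.map (up m)).sum : ℕ) : ℝ) + N / 2 + √(N : ℝ) / 3 + 1 / 8 <
      √(N : ℝ) * (d + 3 / 2))
    (hM : (N : ℝ) * ((N : ℝ) / 2 + 2) ≤ (((N - E.card) * (2 * m + 1) + (E.map (low m)).sum : ℕ) : ℝ))
    (hW : √(N : ℝ) * (d + 3 / 2) + √(N : ℝ) / 3 + 9 / 8 <
      (((N - E.card) * (2 * m + 1) + (E.map (low m)).sum : ℕ) : ℝ) + N / 2) :
    Sgn ((N - E.card) • q4 (2 * m) + ((3 * E.card) • {m} + E)) d := by
  refine Sgn_dbl (by omega) ?_ ?_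
  · refine sur_clusters hm E _ hE ?_
    refine SurM_win (N := N) (b := 2 * m) hN ?_ ?_ ?_
    · rw [Multiset.card_add, Multiset.card_nsmul, Multiset.card_singleton, Multiset.card_map]
      omega
    · intro e he
      rw [Multiset.mem_add] at he
      rcases he with he | he
      · have h1 := Multiset.mem_of_mem_nsmul he
        rw [Multiset.mem_singleton] at h1
        omega
      · obtain ⟨x, hx, rfl⟩ := Multiset.mem_map.1 he
        have h1 := hE x hx
        unfold up
        omega
    · rw [Multiset.sum_add, Multiset.sum_nsmul, Multiset.sum_singleton, smul_eq_mul]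
      exact hS
  · refine emp_clusters hm E _ (fun e he => (hE e he).1) ?_
    refine EmpM_win (N := N) hN ?_ ?_ ?_
    · rw [Multiset.card_add, Multiset.card_nsmul, Multiset.card_singleton, Multiset.card_map]
      omega
    · rw [Multiset.sum_add, Multiset.sum_nsmul, Multiset.sum_singleton, smul_eq_mul]
      exact hM
    · rw [Multiset.sum_add, Multiset.sum_nsmul, Multiset.sum_singleton, smul_eq_mul]
      exact hW

end Pool.Agent.TH641.DI
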